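import Pool.Agent.helper19.FE.Spec

/-!
# Row fe:FCV (MP_bf63dc_nt): Pool/Agent/helper23/FP/FCU.lean with `k` chosen before the slopes
-/

set_option autoImplicit false

namespace Pool.Agent.FE

open Finset
open Pool.Agent.FR (mean)
open Pool.Agent.AT (Qk Pair)
open Pool.Agent.HF (Om TC)
open Pool.Agent.DP (Fm PrE CORE2_stmt)

theorem FCV (hQ : ∀ k : ℕ, 1 ≤ k → Qk k) (hCLV : Pool.Agent.FP.CLV_stmt) (hFCP : Pool.Agent.DK.FCP_stmt) : FCV_stmt := by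
  classical
  intro G δ hG hδ
  obtain ⟨ε, hεdef⟩ : ∃ ε : ℝ, ε = min δ 1 := ⟨_, rfl⟩
  have hε0 : 0 < ε := by
    rw [hεdef]
    exact lt_min hδ one_pos
  have hε1 : ε ≤ 1 := by
    rw [hεdef]
    exact min_le_right _ _
  have hεδ : ε ≤ δ := by
    rw [hεdef]
    exact min_le_left _ _
  obtain ⟨n, η, hn, hη, hF⟩ := hFCP G G (fun β => β) ε hG hε0 hε1
  refine ⟨n * G, fun w hw => ?_⟩
  obtain ⟨X₀, hX₀, hC⟩ := hCLV hQ G n w η hG hn hη hw
  refine ⟨X₀, ?_⟩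
  intro Q hQ1 hp1 hp2 D X h hD hQD hX hX1 hh
  have hcount := hC Q hQ1 hp1 hp2 X D h hX hD hQD hh
  have hcount2 : (#{ω : Om n G X | ¬ ∃ J : Finset (Fin n × Fin G), (1 / 4 + 1 / 500000 : ℝ) * (n * G) ≤ #J ∧
      (∀ x ∈ J, ∀ y ∈ J, (fun β : Fin G => β) x.2 ≠ (fun β : Fin G => β) y.2 →
        (fun (β β' : Fin G) (u v : ℕ) => PrE (w β, h β + (D : ℤ) * (u : ℤ)) (w β', h β' + (D : ℤ) * (v : ℤ))) x.2 y.2 (ω x.1 ((fun β : Fin G => β) x.2)) (ω y.1 ((fun β : Fin G => β) y.2))) ∧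
      (∀ x ∈ J, ∀ y ∈ J, x.1 = y.1 → (fun β : Fin G => β) x.2 = (fun β : Fin G => β) y.2 → x.2 = y.2)} : ℝ) ≤ η * (X : ℝ) ^ (n * G) := by
    refine le_trans (Nat.cast_le.2 (Finset.card_le_card ?_)) hcount
    intro ω hω
    have hω' := (Finset.mem_filter.1 hω).2
    refine Finset.mem_filter.2 ⟨mem_univ _, ?_⟩
    rintro ⟨J, hJ1, hJ2⟩
    exact hω' ⟨J, hJ1, fun x hx y hy _ => hJ2 x hx y hy, fun x _ y _ _ h => h⟩
  obtain ⟨a, ha01, hamean, haE, -⟩ := hF X (1 / 4 + 1 / 500000) (fun (β β' : Fin G) (u v : ℕ) => PrE (w β, h β + (D : ℤ) * (u : ℤ)) (w β', h β' + (D : ℤ) * (v : ℤ)))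
    hX1 (by norm_num) hcount2
  have hG0 : (0 : ℝ) < G := by exact_mod_cast hG
  have hX0 : (0 : ℝ) < X := by exact_mod_cast hX1
  refine ⟨fun γ x => a γ x, fun γ x => ha01 _ _, ?_, ?_⟩
  · have h1 : (mean fun γ : Fin G => mean fun x : Fin X => a γ x) = (∑ β, ∑ u ∈ range X, a β u) / (G * X) := by
      unfold mean
      rw [Fintype.card_fin, Fintype.card_fin, ← Finset.sum_div, div_div, mul_comm (X : ℝ)]
      congr 1
      exact Finset.sum_congr rfl fun β _ => Fin.sum_univ_eq_sum_range (fun u => a β u) X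
    rw [h1, le_div_iff₀ (by positivity)]
    refine le_trans ?_ hamean
    exact mul_le_mul_of_nonneg_right (by linarith) (by positivity)
  · intro γ γ' hγ
    have h2 := haE γ γ' hγ
    have h3 : (mean fun z : Fin X × Fin X => if PrE (w γ, h γ + (D : ℤ) * ((z.1 : ℕ) : ℤ)) (w γ', h γ' + (D : ℤ) * ((z.2 : ℕ) : ℤ)) then 0 else a γ z.1 * a γ' z.2) =
        (∑ u ∈ range X, ∑ v ∈ range X, (if PrE (w γ, h γ + (D : ℤ) * (u : ℤ)) (w γ', h γ' + (D : ℤ) * (v : ℤ)) then 0 else a γ u * a γ' v)) / (X : ℝ) ^ 2 := by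
      unfold mean
      rw [Fintype.card_prod, Fintype.card_fin, Fintype.sum_prod_type]
      have h4 : (((X * X : ℕ)) : ℝ) = (X : ℝ) ^ 2 := by push_cast; ring
      rw [h4]
      congr 1
      rw [← Fin.sum_univ_eq_sum_range (fun u => ∑ v ∈ range X, (if PrE (w γ, h γ + (D : ℤ) * (u : ℤ)) (w γ', h γ' + (D : ℤ) * (v : ℤ)) then 0 else a γ u * a γ' v)) X]
      refine Finset.sum_congr rfl fun u _ => ?_
      exact Fin.sum_univ_eq_sum_range (fun v => (if PrE (w γ, h γ + (D : ℤ) * ((u : ℕ) : ℤ)) (w γ', h γ' + (D : ℤ) * (v : ℤ)) then 0 else a γ u * a γ' v)) X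
    rw [h3, div_le_iff₀ (by positivity)]
    exact h2.trans (mul_le_mul_of_nonneg_right hεδ (by positivity))

end Pool.Agent.FE
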