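import Pool.Agent.helper19.FE.Fin
import Pool.Agent.helper19.FE.FCV
import Pool.Agent.helper76.FE.IDP
import Pool.Agent.helper42.FE.ORO
import Pool.Agent.helper65.FE.BAG
import Pool.Agent.helper94.FE.ONG
import Pool.Agent.helper76.FP.All

/-!
# Project FE (MP_bf63dc_nt): Theorem FE
-/

set_option autoImplicit false

namespace Pool.Agent.FE

theorem All_IDO (h : IDP_stmt) : IDO_stmt := by
  intro ι _ x η hη
  obtain ⟨G, hG, h⟩ := h ι η hη
  obtain ⟨M, y, g, h1, -, h3⟩ := h x
  exact ⟨G, M, y, g, hG, h1, h3⟩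

/-- for every `ε > 0` there is an absolute `K` such that for every case with `a ≠ b` one of the first `K` iterates is true for at least `1 - ε` of all coefficients in every long interval of every class near its coefficient -/
theorem FE : FE_stmt :=
  FINE (MDG (All_IDO IDP) ORO Pool.Agent.FP.PLC (FCV Pool.Agent.AT.Q_all Pool.Agent.FP.CLV Pool.Agent.DP.Z_FCP) BAG (Pool.Agent.FP.PIG Pool.Agent.FP.STL) (ONG Pool.Agent.FP.COR Pool.Agent.FP.CNX) Pool.Agent.FR.ORT) Pool.Agent.DP.CORE2

end Pool.Agent.FE
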