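import Pool.Agent.helper19.FE.MDG
import Pool.Agent.helper51.FP.ENU

/-!
# Project FE (MP_bf63dc_nt): Theorem FE from MDG and CORE2
-/

set_option autoImplicit false

namespace Pool.Agent.FE

open Finset
open Pool.Agent.FR (mean)
open Pool.Agent.DP (CORE2_stmt)
open Pool.Agent.IT (Ad br)

theorem Fin_mono {η η' : ℝ} (h : η' ≤ η) {a b : ℕ} {c : ℤ} (hD : Pool.Agent.SK.Dens η a b c) : Pool.Agent.SK.Dens η' a b c := by
  obtain ⟨D, h1, h2⟩ := hD
  refine ⟨D, h1, fun q hq hDq => ?_⟩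
  obtain ⟨M₀, h3⟩ := h2 q hq hDq
  refine ⟨M₀, fun M hM Y hY => le_trans ?_ (h3 M hM Y hY)⟩
  exact mul_le_mul_of_nonneg_right h (Nat.cast_nonneg M)

theorem FINE (hMDG : MDG_stmt) (hCORE : CORE2_stmt) : FE_stmt := by
  intro ε hε
  obtain ⟨c₀, hc0, -, h⟩ := hMDG
  have hε' : 0 < min ε 1 := lt_min hε one_pos
  obtain ⟨N, hN⟩ := exists_nat_gt (32 / (c₀ * min ε 1) ^ 4)
  obtain ⟨K, hK, h⟩ := h (min ε 1) hε' (min_le_right _ _) N
  refine ⟨K, hK, fun a b c had hab => ?_⟩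
  by_contra hcon
  have hbad : ∀ m : ℕ, 1 ≤ m → m ≤ K → ¬ Pool.Agent.SK.Dens (1 - min ε 1) (a ^ m) (b ^ m) (c * br a b m) := by
    intro m h1 h2 h3
    exact hcon ⟨m, h1, h2, Fin_mono (by linarith [min_le_left ε 1]) h3⟩
  have hN1 : (0 : ℝ) < (N : ℝ) + 1 := by positivity
  obtain ⟨Φ, Ξ, i1, i2, i3, i4, A, g, B, hA, hB, hc, ho⟩ := h a b c had hab hbad (1 / ((N : ℝ) + 1)) (by positivity)
  have h1 := hCORE Φ Ξ (Fin N) Finset.univ A g B (c₀ * min ε 1) (1 / ((N : ℝ) + 1)) (by positivity) hA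
    (fun τ _ => Pool.Agent.FP.ENU_mean (B τ) (hB τ)) (by positivity)
    (by
      rw [Finset.card_univ, Fintype.card_fin, div_mul_eq_mul_div, one_mul]
      exact div_le_one_of_le₀ (by linarith) hN1.le)
    (fun τ _ τ' _ hne => ho τ τ' hne) (fun τ _ => (hc τ).trans (le_abs_self _))
  rw [Finset.card_univ, Fintype.card_fin] at h1
  linarith

end Pool.Agent.FE
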