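import Pool.Agent.helper19.FE.Spec
import Pool.Agent.helper76.FP.MDU
import Pool.Agent.helper24.IT.PRI

/-!
# Project FE (MP_bf63dc_nt): the data of the counting argument for the orbits
-/

set_option autoImplicit false

namespace Pool.Agent.FE

open Finset
open Pool.Agent.FR (mean PRJ_mul PRJ_nonneg PRJ_le_const EXC_cop EXC_dvd)
open Pool.Agent.DP (Fm PrE Fm_bound)
open Pool.Agent.FP (fa DataU fa_bound tr Fc Lab)
open Pool.Agent.IT (Ad br PRI_orbit)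

/-- the kernel -/
noncomputable def BK (A B : ℕ) (C : ℤ) (D D' l X : ℕ) (z : Fin X × Fin X) : ℝ :=
  Fm (fa (A, B)) (D * D') l (C + D * ((A : ℤ) * ((z.1 : ℕ) : ℤ) - B * ((z.2 : ℕ) : ℤ))) - fa (A, B) (C + D * ((A : ℤ) * ((z.1 : ℕ) : ℤ) - B * ((z.2 : ℕ) : ℤ)))

theorem BK_abs (A B : ℕ) (D D' l : ℕ) (y : ℤ) : |Fm (fa (A, B)) (D * D') l y - fa (A, B) y| ≤ 1 := by
  have h1 := Fm_bound (fa (A, B)) (fa_bound _) (D * D') l y
  have h2 := fa_bound (A, B) y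
  exact abs_le.2 ⟨by linarith, by linarith⟩

/-- different ratios are nearly orthogonal -/
theorem MDG_ort (hORT : Pool.Agent.FR.ORT_stmt) (m D l l' X A B A' B' : ℕ) (C C' : ℤ) (hA : 1 ≤ A) (hAm : A ≤ m) (hBm : B ≤ m) (hAm' : A' ≤ m) (hBm' : B' ≤ m)
    (hc : Nat.Coprime A B) (hc' : Nat.Coprime A' B') (hne : (A, B) ≠ (A', B')) (hl : 1 ≤ l) (hX : 1 ≤ X) :
    |mean fun z : Fin X × Fin X => BK A B C D (m ^ 2).factorial l X z * BK A' B' C' D (m ^ 2).factorial l' X z| ≤ 4 * l * (m ^ 2).factorial * m / X := by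
  have hdet : ((A : ℕ) : ℤ) * B' - A' * B ≠ 0 := by
    intro h0
    obtain ⟨h1, h2⟩ := EXC_cop _ _ _ _ hA hc hc' h0
    exact hne (Prod.ext h1 h2)
  have hdvd := EXC_dvd _ _ _ _ m hAm hBm hAm' hBm' hdet
  have h1 := hORT A B A' B' m (m ^ 2).factorial l X (fun y => fa (A, B) (C + D * y))
    (fun y => Fm (fa (A', B')) (D * (m ^ 2).factorial) l' (C' + D * y) - fa (A', B') (C' + D * y))
    hAm hBm hAm' hBm' hl hX (Nat.factorial_pos _) hdet hdvd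
    (fun y => by
      have h2 := fa_bound (A, B) (C + D * y)
      exact abs_le.2 ⟨by linarith, h2.2⟩)
    (fun y => BK_abs A' B' D _ l' _)
  have e1 : (mean fun z : Fin X × Fin X => BK A B C D (m ^ 2).factorial l X z * BK A' B' C' D (m ^ 2).factorial l' X z) =
      -(mean fun z : Fin X × Fin X =>
        ((fun y => fa (A, B) (C + D * y)) ((A : ℤ) * ((z.1 : ℕ) : ℤ) - (B : ℤ) * ((z.2 : ℕ) : ℤ)) -
          mean fun k : Fin l => (fun y => fa (A, B) (C + D * y)) ((A : ℤ) * ((z.1 : ℕ) : ℤ) - (B : ℤ) * ((z.2 : ℕ) : ℤ) + ((m ^ 2).factorial : ℕ) * ((k : ℕ) : ℤ))) *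
        (fun y => Fm (fa (A', B')) (D * (m ^ 2).factorial) l' (C' + D * y) - fa (A', B') (C' + D * y))
          ((A' : ℤ) * ((z.1 : ℕ) : ℤ) - (B' : ℤ) * ((z.2 : ℕ) : ℤ))) := by
    rw [← neg_one_mul, ← PRJ_mul]
    congr 1
    funext z
    have e2 : Fm (fa (A, B)) (D * (m ^ 2).factorial) l (C + D * ((A : ℤ) * ((z.1 : ℕ) : ℤ) - B * ((z.2 : ℕ) : ℤ))) =
        mean fun k : Fin l => fa (A, B) (C + D * ((A : ℤ) * ((z.1 : ℕ) : ℤ) - (B : ℤ) * ((z.2 : ℕ) : ℤ) + ((m ^ 2).factorial : ℕ) * ((k : ℕ) : ℤ))) := by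
      unfold Fm
      congr 1
      funext k
      congr 1
      push_cast
      ring
    unfold BK
    rw [e2]
    dsimp only
    ring
  rw [e1, abs_neg]
  refine h1.trans (le_of_eq ?_)
  ring

/-- the exponents of the tuple `τ` -/
def ex (τ i : ℕ) : ℕ := 4 ^ τ * i

theorem ex_le (N τ : ℕ) (i : Fin 4) (hτ : τ < N) : ex τ i ≤ 3 * 4 ^ N := by
  unfold ex
  have h1 : 4 ^ τ ≤ 4 ^ N := Nat.pow_le_pow_right (by norm_num) hτ.le
  have h2 : (i : ℕ) ≤ 3 := by omega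
  calc 4 ^ τ * (i : ℕ) ≤ 4 ^ N * 3 := Nat.mul_le_mul h1 h2
    _ = 3 * 4 ^ N := by ring

theorem ex_sub (τ : ℕ) (i j : Fin 4) (_h : j < i) : ex τ i - ex τ j = 4 ^ τ * ((i : ℕ) - j) := by
  unfold ex
  rw [Nat.mul_sub]

theorem ex_inj_aux (τ τ' u u' : ℕ) (hu : 1 ≤ u) (hu' : 1 ≤ u') (hu3 : u ≤ 3) (h : τ < τ') : 4 ^ τ * u ≠ 4 ^ τ' * u' := by
  intro h1
  obtain ⟨k, rfl⟩ : ∃ k, τ' = τ + (k + 1) := ⟨τ' - τ - 1, by omega⟩
  rw [pow_add, mul_assoc] at h1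
  have h2 := Nat.eq_of_mul_eq_mul_left (pow_pos (by norm_num) τ) h1
  have h3 : 1 ≤ 4 ^ k := Nat.one_le_pow _ _ (by norm_num)
  have h4 : 4 ^ (k + 1) = 4 * 4 ^ k := by ring
  rw [h4] at h2
  have h5 : 4 * 1 * 1 ≤ 4 * 4 ^ k * u' := Nat.mul_le_mul (Nat.mul_le_mul le_rfl h3) hu'
  omega

theorem ex_inj (τ τ' : ℕ) (i j i' j' : Fin 4) (h : j < i) (h' : j' < i') (hne : τ ≠ τ') : ex τ i - ex τ j ≠ ex τ' i' - ex τ' j' := by
  rw [ex_sub τ i j h, ex_sub τ' i' j' h']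
  have h1 : (j : ℕ) < i := h
  have h2 : (j' : ℕ) < i' := h'
  rcases lt_or_gt_of_ne hne with h3 | h3
  · exact ex_inj_aux τ τ' _ _ (by omega) (by omega) (by omega) h3
  · exact (ex_inj_aux τ' τ _ _ (by omega) (by omega) (by omega) h3).symm

/-- the pairs of indices -/
abbrev EE : Type := {e : Fin 4 × Fin 4 // e.2 < e.1}

theorem MDG (hIDO : IDO_stmt) (hORO : ORO_stmt) (hPLC : Pool.Agent.FP.PLC_stmt) (hFCV : FCV_stmt) (hBAG : BAG_stmt) (hPIG : Pool.Agent.FP.PIG_stmt) (hONG : ONG_stmt)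
    (hORT : Pool.Agent.FR.ORT_stmt) : MDG_stmt := by
  classical
  obtain ⟨t, ht⟩ : ∃ t : ℝ, t = 1 / 4000000 := ⟨_, rfl⟩
  have ht0 : 0 < t := by rw [ht]; norm_num
  have ht1 : t ≤ 1 := by rw [ht]; norm_num
  obtain ⟨J, hJ1, hJ⟩ : ∃ J : ℕ, 1 ≤ J ∧ 2 * ((Fintype.card EE : ℝ) + 1) * (4 : ℕ) ≤ t ^ 3 * J := by
    refine ⟨⌈2 * ((Fintype.card EE : ℝ) + 1) * (4 : ℕ) / t ^ 3⌉₊ + 1, by omega, ?_⟩
    have h1 := Nat.le_ceil (2 * ((Fintype.card EE : ℝ) + 1) * (4 : ℕ) / t ^ 3)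
    rw [div_le_iff₀ (by positivity)] at h1
    push_cast at h1 ⊢
    have h2 : 0 < t ^ 3 := by positivity
    nlinarith
  have hJ0 : (1 : ℝ) ≤ J := by exact_mod_cast hJ1
  obtain ⟨c₁, hc₁⟩ : ∃ c₁ : ℝ, c₁ = t ^ 3 / (J * Fintype.card EE * (Fintype.card (Fin J → Option EE) : ℝ) ^ 2) := ⟨_, rfl⟩
  have hkk : (1 : ℝ) ≤ Fintype.card EE := by
    have : Nonempty EE := ⟨⟨(1, 0), by decide⟩⟩
    have : 1 ≤ Fintype.card EE := Fintype.card_pos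
    exact_mod_cast this
  have hPP : (1 : ℝ) ≤ Fintype.card (Fin J → Option EE) := by
    have : 1 ≤ Fintype.card (Fin J → Option EE) := Fintype.card_pos
    exact_mod_cast this
  have hc₁0 : 0 < c₁ := by
    rw [hc₁]
    positivity
  have hc₁1 : c₁ ≤ 1 := by
    rw [hc₁, div_le_one (by positivity)]
    have h1 : t ^ 3 ≤ 1 := pow_le_one₀ ht0.le ht1
    have h2 : (1 : ℝ) ≤ (Fintype.card (Fin J → Option EE) : ℝ) ^ 2 := one_le_pow₀ hPP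
    have h3 : (1 : ℝ) ≤ J * Fintype.card EE := by nlinarith
    nlinarith
  refine ⟨c₁ / 4, by positivity, by linarith, fun ε hε hε1 N => ?_⟩
  obtain ⟨η₁, hη₁⟩ : ∃ η₁ : ℝ, η₁ = c₁ * ε / 48 := ⟨_, rfl⟩
  have hη₁0 : 0 < η₁ := by rw [hη₁]; positivity
  obtain ⟨δ, hδ⟩ : ∃ δ : ℝ, δ = min t (c₁ * ε / 12) := ⟨_, rfl⟩
  have hδ0 : 0 < δ := by
    rw [hδ]
    exact lt_min ht0 (by positivity)
  have hδt : δ ≤ t := by
    rw [hδ]
    exact min_le_left _ _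
  have hδc : δ ≤ c₁ * ε / 12 := by
    rw [hδ]
    exact min_le_right _ _
  -- the index set
  obtain ⟨G, M, y, T, hG1, hyM, hIDO⟩ := hIDO (Fin N × Lab J EE 4) (fun z => ex z.1 z.2.2) η₁ hη₁0
  -- the cliques
  obtain ⟨k', hk'⟩ := hFCV G δ hG1 hδ0
  obtain ⟨n₀, hn₀, hORO⟩ := hORO k'
  obtain ⟨E₁, hE₁⟩ : ∃ E₁ : ℕ, E₁ = 3 * 4 ^ N := ⟨_, rfl⟩
  have hE₁1 : 1 ≤ E₁ := by
    rw [hE₁]
    have : 1 ≤ 4 ^ N := Nat.one_le_pow _ _ (by norm_num)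
    omega
  refine ⟨n₀ * E₁, Nat.mul_pos hn₀ hE₁1, fun a b c hAd hab hbad e he => ?_⟩
  have ha1 : 1 ≤ a := hAd.1
  have hb1 : 1 ≤ b := hAd.2.1
  have hcop : Nat.Coprime a b := hAd.2.2.2.1
  obtain ⟨a', ha'⟩ : ∃ a' : ℕ, a' = a ^ n₀ := ⟨_, rfl⟩
  obtain ⟨b', hb'⟩ : ∃ b' : ℕ, b' = b ^ n₀ := ⟨_, rfl⟩
  have ha'1 : 1 ≤ a' := by rw [ha']; exact Nat.one_le_pow _ _ ha1
  have hb'1 : 1 ≤ b' := by rw [hb']; exact Nat.one_le_pow _ _ hb1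
  have hcop' : Nat.Coprime a' b' := by rw [ha', hb']; exact Nat.Coprime.pow _ _ hcop
  obtain ⟨P, hP1, hV⟩ := hIDO a' b' ha'1 hb'1
  obtain ⟨h, hh, hhc⟩ := hORO a b c hAd M
  obtain ⟨w, hw⟩ : ∃ w : Fin G → ℕ, w = fun γ => a' ^ (M - y γ) * b' ^ (y γ) := ⟨_, rfl⟩
  have hw1 : ∀ γ, 1 ≤ w γ := by
    intro γ
    rw [hw]
    exact Nat.mul_pos (pow_pos ha'1 _) (pow_pos hb'1 _)
  obtain ⟨X₀, hk'⟩ := hk' w hw1
  obtain ⟨Q₀, hQ₀⟩ : ∃ Q₀ : ℕ, Q₀ = k'.factorial * a * b := ⟨_, rfl⟩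
  have hQ₀1 : 1 ≤ Q₀ := by
    rw [hQ₀]
    exact Nat.mul_pos (Nat.mul_pos (Nat.factorial_pos _) ha1) hb1
  have hQ₀k : ∀ p : ℕ, p.Prime → p ≤ k' → p ∣ Q₀ := by
    intro p hp hpk
    rw [hQ₀]
    exact ((Nat.dvd_factorial hp.pos hpk).mul_right _).mul_right _
  have hQ₀w : ∀ γ, ∀ p : ℕ, p.Prime → p ∣ w γ → p ∣ Q₀ := by
    intro γ p hp hpw
    rw [hw] at hpw
    rw [hQ₀]
    rcases (hp.dvd_mul).1 hpw with h1 | h1
    · have h2 := hp.dvd_of_dvd_pow h1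
      rw [ha'] at h2
      exact ((hp.dvd_of_dvd_pow h2).mul_left _).mul_right _
    · have h2 := hp.dvd_of_dvd_pow h1
      rw [hb'] at h2
      exact (hp.dvd_of_dvd_pow h2).mul_left _
  obtain ⟨m, hm⟩ : ∃ m : ℕ, m = a' ^ E₁ + b' ^ E₁ := ⟨_, rfl⟩
  have hm1 : 1 ≤ m := by
    rw [hm]
    have := Nat.one_le_pow E₁ a' ha'1
    omega
  have hm0 : (0 : ℝ) < m := by exact_mod_cast hm1
  obtain ⟨e₁, he₁⟩ : ∃ e₁ : ℝ, e₁ = c₁ * ε / (36 * m) := ⟨_, rfl⟩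
  have he₁0 : 0 < e₁ := by rw [he₁]; positivity
  have he₁m : 3 * m * e₁ = c₁ * ε / 12 := by
    rw [he₁]
    field_simp
    ring
  -- the differences of the exponents
  obtain ⟨d, hd⟩ : ∃ d : Fin N → EE → ℕ, d = fun (τ : Fin N) (i : EE) => ex τ i.1.1 - ex τ i.1.2 := ⟨_, rfl⟩
  have hd1 : ∀ τ i, 1 ≤ d τ i := by
    intro τ i
    rw [hd]
    dsimp only
    rw [ex_sub _ _ _ i.2]
    have h1 : (i.1.2 : ℕ) < i.1.1 := i.2
    exact Nat.mul_pos (pow_pos (by norm_num) _) (by omega)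
  have hexE : ∀ (τ : Fin N) (i : Fin 4), ex τ i ≤ E₁ := fun τ i => by rw [hE₁]; exact ex_le N τ i τ.2
  have hdE : ∀ τ i, d τ i ≤ E₁ := by
    intro τ i
    rw [hd]
    exact (Nat.sub_le _ _).trans (hexE _ _)
  have hdx : ∀ (τ : Fin N) (i : EE), ex τ i.1.1 = ex τ i.1.2 + d τ i := by
    intro τ i
    have h1 := hd1 τ i
    rw [hd] at h1 ⊢
    dsimp only at h1 ⊢
    omega
  have hbad' : ∀ τ i, ¬ Pool.Agent.SK.Dens (1 - ε) (a' ^ d τ i) (b' ^ d τ i) (c * br a b (n₀ * d τ i)) := by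
    intro τ i
    rw [ha', hb', ← pow_mul, ← pow_mul]
    exact hbad (n₀ * d τ i) (Nat.mul_pos hn₀ (hd1 τ i)) (Nat.mul_le_mul_left _ (hdE τ i))
  have hAm : ∀ τ i, a' ^ d τ i ≤ m ∧ b' ^ d τ i ≤ m := by
    intro τ i
    rw [hm]
    have h1 := Nat.pow_le_pow_right ha'1 (hdE τ i)
    have h2 := Nat.pow_le_pow_right hb'1 (hdE τ i)
    omega
  -- the places
  have hplc : ∀ τ : Fin N, _ := fun τ => hPLC J EE (fun i => fa (a' ^ d τ i, b' ^ d τ i)) (fun i => c * br a b (n₀ * d τ i))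
    (fun i => b' ^ ex τ i.1.1 * a' ^ (E₁ - ex τ i.1.2)) ε e₁ (Q₀ * P) hε hε1 he₁0 (Nat.mul_pos hQ₀1 hP1)
    (fun i => Nat.mul_pos (pow_pos hb'1 _) (pow_pos ha'1 _)) (fun i x => fa_bound _ _) (fun i => hBAG ε _ _ _ (hbad' τ i))
  choose Q hQ1 hQ2 hQ3 using hplc
  obtain ⟨D, hD⟩ : ∃ D : ℕ, D = Q₀ * P * ∏ τ, Q τ := ⟨_, rfl⟩
  have hD1 : 1 ≤ D := by
    rw [hD]
    exact Nat.mul_pos (Nat.mul_pos hQ₀1 hP1) (Finset.prod_pos fun τ _ => hQ1 τ)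
  have hQD : ∀ τ, Q τ ∣ D := by
    intro τ
    rw [hD]
    exact (Finset.dvd_prod_of_mem Q (mem_univ τ)).mul_left _
  have hQ₀D : Q₀ ∣ D := by
    rw [hD, mul_assoc]
    exact dvd_mul_right _ _
  have hl : ∀ τ : Fin N, _ := fun τ => hQ3 τ D hD1 (hQD τ) (m ^ 2).factorial (Nat.factorial_pos _)
  choose l hl1 hl2 using hl
  obtain ⟨X, hX₀, hX1, hXl⟩ : ∃ X : ℕ, X₀ ≤ X ∧ 1 ≤ X ∧ ∀ τ, 4 * (l τ : ℝ) * ((m ^ 2).factorial : ℕ) * m ≤ e * X := by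
    refine ⟨X₀ + 1 + ⌈4 * ((∑ τ, l τ : ℕ) : ℝ) * ((m ^ 2).factorial : ℕ) * m / e⌉₊, by omega, by omega, fun τ => ?_⟩
    have h1 := Nat.le_ceil (4 * ((∑ τ, l τ : ℕ) : ℝ) * ((m ^ 2).factorial : ℕ) * m / e)
    rw [div_le_iff₀ he] at h1
    have h2 : l τ ≤ ∑ τ, l τ := single_le_sum (f := l) (fun _ _ => Nat.zero_le _) (mem_univ τ)
    have h3 : (l τ : ℝ) ≤ ((∑ τ, l τ : ℕ) : ℝ) := by exact_mod_cast h2
    have h4 : 4 * (l τ : ℝ) * ((m ^ 2).factorial : ℕ) * m ≤ 4 * ((∑ τ, l τ : ℕ) : ℝ) * ((m ^ 2).factorial : ℕ) * m := by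
      have h5 : (0 : ℝ) ≤ ((m ^ 2).factorial : ℕ) * m := by positivity
      nlinarith
    refine h4.trans (h1.trans ?_)
    push_cast
    have h6 : (0 : ℝ) ≤ (X₀ : ℝ) := Nat.cast_nonneg _
    nlinarith
  have hX0 : (0 : ℝ) < X := by exact_mod_cast hX1
  have hDel : ∀ τ : Fin N, _ := fun τ => hl2 τ (m * X)
  choose Del hDel1 hDel2 using hDel
  have htr : ∀ τ (π : Fin J → Option EE), ((Q₀ * P : ℕ) : ℤ) ∣ tr (Del τ) π := by
    intro τ π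
    unfold tr
    refine Finset.dvd_sum fun j _ => ?_
    rcases π j with _ | i
    · exact dvd_zero _
    · exact hDel1 τ j i
  obtain ⟨o, ho1, ho2⟩ := hV (fun z => (b' : ℤ) ^ ex z.1 z.2.2 * ((a' : ℤ) ^ E₁ * tr (Del z.1) z.2.1)) (Q₀ : ℤ) (fun z => by
    have h1 := htr z.1 z.2.1
    push_cast at h1
    exact (h1.mul_left _).mul_left _)
  obtain ⟨H, hH⟩ : ∃ H : Fin G → ℤ, H = fun γ => h (n₀ * y γ) + o γ := ⟨_, rfl⟩
  obtain ⟨f, hf1, hf2, hf3⟩ := hk' Q₀ hQ₀1 hQ₀k hQ₀w D X H hD1 hQ₀D hX₀ hX1 (fun γ => by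
    obtain ⟨x, hx⟩ := ho1 γ
    have h1 := hhc (y γ) (hyM γ)
    rw [← hQ₀] at h1
    rw [hH]
    dsimp only
    rw [hx]
    exact (IsCoprime.add_mul_left_left_iff).2 h1)
  have : Nonempty (Fin G) := ⟨⟨0, hG1⟩⟩
  have : Nonempty (Fin X) := ⟨⟨0, hX1⟩⟩
  -- the facing pairs
  have hpig : ∀ τ : Fin N, ∃ (j : Fin J) (i : EE) (π π' : Fin J → Option EE), Fc j i π π' ∧
      c₁ ≤ mean fun φ => mean (f (T (τ, (π, i.1.1)) φ)) * mean (f (T (τ, (π', i.1.2)) φ)) := by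
    intro τ
    rw [hc₁]
    exact hPIG 4 J EE (fun i => i.1.1) (fun i => i.1.2) t G (fun φ => mean (f φ)) (fun x => T (τ, x)) (by norm_num) hJ1 hG1 ht0 ht1
      (fun φ => ⟨PRJ_nonneg fun x => (hf1 φ x).1, PRJ_le_const fun x => (hf1 φ x).2⟩) (by
        intro S hS
        by_contra hcon
        obtain ⟨u, hu, v, hv, huv⟩ := one_lt_card.1 (show 1 < S.card by omega)
        rcases lt_or_gt_of_ne huv with h1 | h1
        · exact hS ⟨(v, u), h1⟩ ⟨hv, hu⟩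
        · exact hS ⟨(u, v), h1⟩ ⟨hu, hv⟩) hJ (by
        refine le_trans ?_ hf2
        rw [ht] at hδt ⊢
        linarith)
  choose j i π π' hFc hcor using hpig
  refine ⟨Fin G, Fin X, inferInstance, inferInstance, inferInstance, inferInstance, f,
    fun τ => (T (τ, (π' τ, (i τ).1.2))).symm.trans (T (τ, (π τ, (i τ).1.1))),
    fun τ => BK (a' ^ d τ (i τ)) (b' ^ d τ (i τ)) (c * br a b (n₀ * d τ (i τ)) + (b' ^ ex τ (i τ).1.1 * a' ^ (E₁ - ex τ (i τ).1.2) : ℕ) * (tr (Del τ) (π τ) - tr (Del τ) (π' τ))) D (m ^ 2).factorial (l τ) X, hf1,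
    fun τ z => BK_abs _ _ _ _ _ _, fun τ => ?_, fun τ τ' hne => ?_⟩
  · obtain ⟨hFc1, hFc2, hFc3⟩ := hFc τ
    have hAB : a' ^ d τ (i τ) ≠ b' ^ d τ (i τ) := by
      intro h1
      have h2 : Nat.Coprime (a' ^ d τ (i τ)) (b' ^ d τ (i τ)) := Nat.Coprime.pow _ _ hcop'
      rw [← h1, Nat.coprime_self] at h2
      have h3 : b' ^ d τ (i τ) = 1 := by rw [← h1]; exact h2
      have h4 := (Nat.pow_eq_one.1 h2).resolve_right (by have := hd1 τ (i τ); omega)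
      have h5 := (Nat.pow_eq_one.1 h3).resolve_right (by have := hd1 τ (i τ); omega)
      rw [ha'] at h4
      rw [hb'] at h5
      have h6 := (Nat.pow_eq_one.1 h4).resolve_right (by omega)
      have h7 := (Nat.pow_eq_one.1 h5).resolve_right (by omega)
      exact hab (h6.trans h7.symm)
    have hrel : (#{φ | ¬ (a' ^ d τ (i τ) * w (T (τ, (π τ, (i τ).1.1)) φ) = b' ^ d τ (i τ) * w (T (τ, (π' τ, (i τ).1.2)) φ) ∧
        ((a' ^ d τ (i τ) : ℕ) : ℤ) * H (T (τ, (π τ, (i τ).1.1)) φ) - ((b' ^ d τ (i τ) : ℕ) : ℤ) * H (T (τ, (π' τ, (i τ).1.2)) φ) =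
          c * br a b (n₀ * d τ (i τ)) + (b' ^ ex τ (i τ).1.1 * a' ^ (E₁ - ex τ (i τ).1.2) : ℕ) * (tr (Del τ) (π τ) - tr (Del τ) (π' τ)))} : ℝ) ≤ (2 * η₁) * G := by
      have h1 := ho2 (τ, (π τ, (i τ).1.1))
      have h2 := ho2 (τ, (π' τ, (i τ).1.2))
      refine le_trans (Nat.cast_le.2 (le_trans (card_le_card ?_) (card_union_le _ _))) (le_trans (le_of_eq (Nat.cast_add _ _)) (le_trans (add_le_add h1 h2) (le_of_eq (by ring))))
      intro φ hφ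
      rw [mem_union, mem_filter, mem_filter]
      by_contra hcon
      push Not at hcon
      obtain ⟨h3, h4⟩ := hcon
      have h3' := h3 (mem_univ _)
      have h4' := h4 (mem_univ _)
      dsimp only at h3' h4'
      obtain ⟨hy1, hoo1⟩ := h3'
      obtain ⟨hy2, hoo2⟩ := h4'
      apply (mem_filter.1 hφ).2
      obtain ⟨x, hx⟩ : ∃ x, x = ex τ (i τ).1.2 := ⟨_, rfl⟩
      obtain ⟨dd, hdd⟩ : ∃ dd, dd = d τ (i τ) := ⟨_, rfl⟩
      have hxd : ex τ (i τ).1.1 = x + dd := by rw [hx, hdd]; exact hdx τ (i τ)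
      have hxE : x ≤ E₁ := by rw [hx]; exact hexE _ _
      rw [hxd] at hy1 hoo1
      rw [← hx] at hy2 hoo2
      rw [hxd, ← hx, ← hdd]
      have hyM1 := hyM (T (τ, (π τ, (i τ).1.1)) φ)
      rw [hy1] at hyM1
      refine ⟨?_, ?_⟩
      · rw [hw]
        dsimp only
        rw [hy1, hy2]
        have e1 : M - (y φ + x) = dd + (M - (y φ + (x + dd))) := by omega
        rw [e1]
        obtain ⟨K₀, hK₀⟩ : ∃ K₀ : ℕ, K₀ = M - (y φ + (x + dd)) := ⟨_, rfl⟩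
        rw [← hK₀]
        ring
      · rw [hH]
        dsimp only
        rw [hy1, hy2]
        have h5 := PRI_orbit a b (n₀ * M) c h hh (n₀ * (y φ + x)) (n₀ * dd) (by rw [← Nat.mul_add]; exact Nat.mul_le_mul_left _ (by omega))
        have e1 : n₀ * (y φ + x) + n₀ * dd = n₀ * (y φ + (x + dd)) := by ring
        rw [e1] at h5
        have e2 : (a : ℤ) ^ (n₀ * dd) = (a' : ℤ) ^ dd := by rw [ha']; push_cast; rw [← pow_mul]
        have e3 : (b : ℤ) ^ (n₀ * dd) = (b' : ℤ) ^ dd := by rw [hb']; push_cast; rw [← pow_mul]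
        rw [e2, e3] at h5
        have h6 : (a' : ℤ) ^ (x + dd) * ((a' : ℤ) ^ dd * o (T (τ, (π τ, (i τ).1.1)) φ) - (b' : ℤ) ^ dd * o (T (τ, (π' τ, (i τ).1.2)) φ)) =
            (a' : ℤ) ^ (x + dd) * ((b' : ℤ) ^ (x + dd) * (a' : ℤ) ^ (E₁ - x) * (tr (Del τ) (π τ) - tr (Del τ) (π' τ))) := by
          have e4 : (a' : ℤ) ^ E₁ = (a' : ℤ) ^ x * (a' : ℤ) ^ (E₁ - x) := by rw [← pow_add]; congr 1; omega
          have e5 : (a' : ℤ) ^ (x + dd) = (a' : ℤ) ^ x * (a' : ℤ) ^ dd := pow_add _ _ _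
          have e6 : (b' : ℤ) ^ (x + dd) = (b' : ℤ) ^ x * (b' : ℤ) ^ dd := pow_add _ _ _
          rw [e5, e6, e4] at hoo1
          rw [e4] at hoo2
          rw [e5, e6]
          linear_combination (a' : ℤ) ^ dd * hoo1 - (b' : ℤ) ^ dd * (a' : ℤ) ^ dd * hoo2
        have ha0 : (a' : ℤ) ^ (x + dd) ≠ 0 := pow_ne_zero _ (by exact_mod_cast (by omega : a' ≠ 0))
        have h7 := mul_left_cancel₀ ha0 h6
        push_cast
        linear_combination h5 + h7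
    have h1 := hONG G X m D (m ^ 2).factorial (l τ) (a' ^ d τ (i τ)) (b' ^ d τ (i τ))
      (c * br a b (n₀ * d τ (i τ)) + (b' ^ ex τ (i τ).1.1 * a' ^ (E₁ - ex τ (i τ).1.2) : ℕ) * (tr (Del τ) (π τ) - tr (Del τ) (π' τ))) w H
      (T (τ, (π τ, (i τ).1.1))) (T (τ, (π' τ, (i τ).1.2))) f ε (2 * η₁) δ e₁
      hG1 hX1 hD1 (hl1 τ) hε hε1 (by positivity) hδ0.le he₁0.le (Nat.one_le_pow _ _ ha'1) (Nat.one_le_pow _ _ hb'1) (hAm τ (i τ)).1 (hAm τ (i τ)).2 (Nat.Coprime.pow _ _ hcop') hAB hw1 hrel hf1 hf3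
      (hDel2 τ (j τ) (i τ) (π τ) (π' τ) hFc1 hFc2 hFc3)
    have h2 : (mean fun φ => mean fun z : Fin X × Fin X => f (((T (τ, (π' τ, (i τ).1.2))).symm.trans (T (τ, (π τ, (i τ).1.1)))) φ) z.1 * f φ z.2 *
        BK (a' ^ d τ (i τ)) (b' ^ d τ (i τ)) (c * br a b (n₀ * d τ (i τ)) + (b' ^ ex τ (i τ).1.1 * a' ^ (E₁ - ex τ (i τ).1.2) : ℕ) * (tr (Del τ) (π τ) - tr (Del τ) (π' τ))) D (m ^ 2).factorial (l τ) X z) =
        mean fun φ => mean fun z : Fin X × Fin X => f (T (τ, (π τ, (i τ).1.1)) φ) z.1 * f (T (τ, (π' τ, (i τ).1.2)) φ) z.2 *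
        BK (a' ^ d τ (i τ)) (b' ^ d τ (i τ)) (c * br a b (n₀ * d τ (i τ)) + (b' ^ ex τ (i τ).1.1 * a' ^ (E₁ - ex τ (i τ).1.2) : ℕ) * (tr (Del τ) (π τ) - tr (Del τ) (π' τ))) D (m ^ 2).factorial (l τ) X z := by
      unfold mean
      congr 1
      rw [← Equiv.sum_comp (T (τ, (π' τ, (i τ).1.2)))]
      refine Finset.sum_congr rfl fun φ _ => ?_
      simp only [Equiv.trans_apply, Equiv.symm_apply_apply]
    rw [h2]
    have h3 := hcor τ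
    have h4 : ε / 2 * c₁ ≤ ε / 2 * mean fun φ => mean (f (T (τ, (π τ, (i τ).1.1)) φ)) * mean (f (T (τ, (π' τ, (i τ).1.2)) φ)) :=
      mul_le_mul_of_nonneg_left h3 (by linarith)
    refine le_trans ?_ h1
    rw [he₁m]
    have h5 : 2 * (2 * η₁) = c₁ * ε / 12 := by rw [hη₁]; ring
    rw [h5]
    linarith
  · have hpne : ((a' ^ d τ (i τ), b' ^ d τ (i τ)) : ℕ × ℕ) ≠ (a' ^ d τ' (i τ'), b' ^ d τ' (i τ')) := by
      intro h1
      have h2 : a' ^ d τ (i τ) = a' ^ d τ' (i τ') := congrArg Prod.fst h1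
      have h3 : b' ^ d τ (i τ) = b' ^ d τ' (i τ') := congrArg Prod.snd h1
      have h4 : d τ (i τ) ≠ d τ' (i τ') := by
        rw [hd]
        exact ex_inj τ τ' _ _ _ _ (i τ).2 (i τ').2 (fun h => hne (Fin.ext h))
      have h5 : a' = 1 := by
        by_contra h6
        exact h4 (Nat.pow_right_injective (by omega) h2)
      have h6 : b' = 1 := by
        by_contra h6
        exact h4 (Nat.pow_right_injective (by omega) h3)
      rw [ha'] at h5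
      rw [hb'] at h6
      have h7 := (Nat.pow_eq_one.1 h5).resolve_right (by omega)
      have h8 := (Nat.pow_eq_one.1 h6).resolve_right (by omega)
      exact hab (h7.trans h8.symm)
    have h1 := MDG_ort hORT m D (l τ) (l τ') X (a' ^ d τ (i τ)) (b' ^ d τ (i τ)) (a' ^ d τ' (i τ')) (b' ^ d τ' (i τ'))
      (c * br a b (n₀ * d τ (i τ)) + (b' ^ ex τ (i τ).1.1 * a' ^ (E₁ - ex τ (i τ).1.2) : ℕ) * (tr (Del τ) (π τ) - tr (Del τ) (π' τ)))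
      (c * br a b (n₀ * d τ' (i τ')) + (b' ^ ex τ' (i τ').1.1 * a' ^ (E₁ - ex τ' (i τ').1.2) : ℕ) * (tr (Del τ') (π τ') - tr (Del τ') (π' τ')))
      (Nat.one_le_pow _ _ ha'1) (hAm τ (i τ)).1 (hAm τ (i τ)).2 (hAm τ' (i τ')).1 (hAm τ' (i τ')).2 (Nat.Coprime.pow _ _ hcop') (Nat.Coprime.pow _ _ hcop') hpne (hl1 τ) hX1
    refine h1.trans ?_
    rw [div_le_iff₀ hX0]
    exact hXl τ

end Pool.Agent.FE
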