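import Pool.Agent.helper76.FP.Spec
import Pool.Agent.helper99.IT.Spec

/-!
# Project FE (MP_bf63dc_nt, rows `fe:*`): FOR EVERY CASE ONE OF THE FIRST `K(ε)` ITERATES IS TRUE FOR ALL BUT THE PROPORTION `ε` OF ALL `c`, IN EVERY LONG INTERVAL

GOAL (THEOREM FE, unconditional). For every `ε > 0` there is an ABSOLUTE `K` such that for EVERY case `(a, b, c)` of Q1 with `a ≠ b` some iterate `T^m`, `1 ≤ m ≤ K`, of `T x = (b x + c)/a` has `Dens (1 - ε) (a^m) (b^m) (c [m])`, `[m] = a^(m-1) + a^(m-2) b + ... + b^(m-1)` (`br a b m`):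
there is `D` such that for every `q` with `D ∣ q` at least the proportion `1 - ε` of EVERY long progression of step `q` in the class of `c [m]` modulo `D` is true for `(a^m, b^m)`.

PROOF. The machine of the project FP (Pool/Agent/helper76/FP/Spec.lean) for orbits. Let `N` be larger than `32/(c₀ ε)^4` and suppose that all `T^m`, `m ≤ K`, are bad. Tuples `τ < N`: the exponents `n₀ 4^τ i`, `i < 4`; the differences `n₀ 4^τ {1, 2, 3}` of different tuples are different, so the ratios `(a^m, b^m)` are different. Labels `(π, i)` as in FP (`EE` = the pairs `j < i`;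
tree of far copies). INDEX SET (IDO): `y γ` in `[0, M]`, permutations `T_z`, `z = (τ, π, i)`, with `y (T_z φ) = y φ + 4^τ i` and `a'^x o (T_z φ) = b'^x o φ + V_z` for almost all `φ`, `x = 4^τ i`, `a' = a^n₀`, `b' = b^n₀`. The forms: slope `a'^(M - y) b'^y`, constants `h (n₀ y) + o + D u`, `h` an orbit of `T`.
With `V_z = b'^x a'^E tr π`: for two labels `z = (τ, π, i)`, `z' = (τ, π', j)`, `j < i`, `A = a'^(x_i - x_j)`, `B = b'^(x_i - x_j)`: `A w(T_z φ) = B w(T_z' φ)` and `A H(T_z φ) - B H(T_z' φ) = c [n₀ (x_i - x_j)] + b'^(x_i) a'^(E - x_j) (tr π - tr π')`: independent of `φ`. ADMISSIBILITY (ORO): `n₀` is divisible by `p (p - 1)` for all primes `p ≤ k'`,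
so `T^(n₀)` is the identity modulo these primes; so all `h (n₀ y)` are prime to `k'! a b` for a suitable orbit. ORDER OF THE CHOICES: `ε`, `N`; the tree; `η₁`; `G, M, y, T` (IDO: independent of `a, b, n₀`); `k'` (FCV: independent of the slopes); `n₀` (ORO); `K = 3 n₀ 4^N`; then the case; `h`, `P`, `D₀`; PLC for every `τ`; `D`; `l`, `X`; `Del`; `o`; the cliques; PIG; ONG.

RULES. Row `XX`: file `Pool/Agent/<seat>/FE/XX.lean`, `import Pool.Agent.helper19.FE.Spec`, `namespace Pool.Agent.FE`, auxiliary lemmas prefixed `XX_`. No `convert`, no `congr!`, no `native_decide`, no straight double quotes, no `#` directly before a lower case letter (write `s.card`).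
-/

set_option autoImplicit false

namespace Pool.Agent.FE

open Finset
open Pool.Agent.FR (mean)
open Pool.Agent.AT (Qk)
open Pool.Agent.DP (Fm PrE)
open Pool.Agent.FP (fa DataU)
open Pool.Agent.IT (Ad br)

open Classical in
/-- **FCV** (short; helper19; `FCU` of Pool/Agent/helper23/FP/FCU.lean with `k` chosen before `w`). -/
def FCV_stmt : Prop := ∀ (G : ℕ) (δ : ℝ), 1 ≤ G → 0 < δ → ∃ k : ℕ, ∀ w : Fin G → ℕ, (∀ γ, 1 ≤ w γ) → ∃ X₀ : ℕ, ∀ Q : ℕ, 1 ≤ Q → (∀ p : ℕ, p.Prime → p ≤ k → p ∣ Q) → (∀ γ, ∀ p : ℕ, p.Prime → p ∣ w γ → p ∣ Q) →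
  ∀ (D X : ℕ) (h : Fin G → ℤ), 1 ≤ D → Q ∣ D → X₀ ≤ X → 1 ≤ X → (∀ γ, IsCoprime (h γ) (Q : ℤ)) → ∃ f : Fin G → Fin X → ℝ, (∀ γ x, 0 ≤ f γ x ∧ f γ x ≤ 1) ∧
    1 / 4 + 1 / 500000 - δ ≤ (mean fun γ => mean (f γ)) ∧
    ∀ γ γ', γ ≠ γ' → (mean fun z : Fin X × Fin X => if PrE (w γ, h γ + (D : ℤ) * ((z.1 : ℕ) : ℤ)) (w γ', h γ' + (D : ℤ) * ((z.2 : ℕ) : ℤ)) then 0 else f γ z.1 * f γ' z.2) ≤ δ

/-- **IDO** (medium; pure; adaptation of Pool/Agent/helper85/FP/IDG.lean; simpler: one cyclic coordinate in the place of the exponents of the primes). `N ≥ 1` with `(x i + 1)/N ≤ η` for all `i`, `M = N`. `W = ZMod N`, `K = (ι × W) → ZMod N`, `Γ = W × K` (`Fin G` by an equivalence), `y (e, κ) = e.val`,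
`g_i (e, κ) = (e + x_i, κ + 1_(i,e))`: a bijection. Given `a, b ≥ 1`: `w_e = a^(N - e) b^e`, `P = ∏_i ∏_e b^(x i) w_e`. Given `V` with `Q P ∣ V i`: `o_(e,κ) = ∑_(i,v) κ(i, v) w_e (V i/(b^(x i) w_v))` (`κ(i, v).val`), a multiple of `Q`. If `e + x_i < N` and `κ(i, e) ≠ -1` then with `(e', κ') = g_i (e, κ)`: `e' = e + x_i`,
`a^(x_i) w_e' = b^(x_i) w_e`, so `a^(x_i) o_(e',κ') = b^(x_i) w_e (∑ κ(..) V/(..) + V i/(b^(x i) w_e)) = b^(x_i) o_(e,κ) + V i`. -/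
def IDO_stmt : Prop := ∀ (ι : Type) [Fintype ι] (x : ι → ℕ) (η : ℝ), 0 < η →
  ∃ (G M : ℕ) (y : Fin G → ℕ) (g : ι → Equiv.Perm (Fin G)), 1 ≤ G ∧ (∀ γ, y γ ≤ M) ∧ ∀ a b : ℕ, 1 ≤ a → 1 ≤ b → ∃ P : ℕ, 1 ≤ P ∧
    ∀ (V : ι → ℤ) (Q : ℤ), (∀ i, Q * P ∣ V i) → ∃ o : Fin G → ℤ, (∀ γ, Q ∣ o γ) ∧ ∀ i,
      (#{γ | ¬ (y (g i γ) = y γ + x i ∧ (a : ℤ) ^ x i * o (g i γ) = (b : ℤ) ^ x i * o γ + V i)} : ℝ) ≤ η * G

/-- **ORO** (short-medium; pure; from `ORB` in Pool/Agent/helper9/IT/ORB.lean and `PRI_orbit` in Pool/Agent/helper24/IT/PRI.lean; compare ADK / Pool/Agent/helper60/HF/ORBK.lean). `n₀ = ∏_(p ≤ k prime) p (p - 1)`. Given the case and `M`: `E = n₀ M + 1`, `g` from ORB for `E`, `h i = g i + a^(E - i) b^i t` for `i ≤ E` (again an orbit for `i < E`), where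
`t` is chosen such that `h 0 = g 0 + a^E t` is prime to all the primes `p ∣ k! a b` which do not divide `a` (Chinese remainder theorem / for instance `t` = the product of those of these primes which do not divide `g 0`: then each `p ∤ a` divides exactly one of `g 0`, `a^E t`). Let `p ∣ k! a b`, `i = n₀ y ≤ n₀ M < E`. `p ∣ a`: `b h i = - c` modulo `p`: a unit.
`p ∤ a`, `p ∣ b`: for `i ≥ 1` `a h i = c` modulo `p`, a unit; `i = 0` by the choice. `p ∤ a b`, `p ∣ c`: `a^i h i = b^i h 0` modulo `p`. `p ∤ a b c` (so `p ≤ k`, and `p ≠ 2`: otherwise `a, b` are odd and `c` is even): `(p - 1) p ∣ n₀`, so `a^(n₀) = b^(n₀) = 1` and `[n₀] = 0` modulo `p` (`br a b n₀`: if `a = b` modulo `p` then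
`[n₀] = n₀ a^(n₀ - 1) = 0`; otherwise `(a - b) [n₀] = a^(n₀) - b^(n₀) = 0`), hence `h (i + n₀) = h i` modulo `p`. -/
def ORO_stmt : Prop := ∀ k : ℕ, ∃ n₀ : ℕ, 1 ≤ n₀ ∧ ∀ (a b : ℕ) (c : ℤ), Ad a b c → ∀ M : ℕ, ∃ h : ℕ → ℤ, (∀ i < n₀ * M, (a : ℤ) * h (i + 1) = b * h i + c) ∧
  ∀ y ≤ M, IsCoprime (h (n₀ * y)) ((k.factorial * a * b : ℕ) : ℤ)

open Classical in
/-- **BAG** (short; Pool/Agent/helper65/FP/BAD.lean for an arbitrary class `c`). -/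
def BAG_stmt : Prop := ∀ (ε : ℝ) (a b : ℕ) (c : ℤ), ¬ Pool.Agent.SK.Dens (1 - ε) a b c → ∀ D : ℕ, 1 ≤ D → ∃ q : ℕ, 1 ≤ q ∧ D ∣ q ∧ ∀ M₀ : ℕ, ∃ M : ℕ, M₀ ≤ M ∧ ∃ y : ℤ, (D : ℤ) ∣ y - c ∧
  ε * M ≤ ∑ k ∈ range M, fa (a, b) (y + q * (k : ℕ))

open Classical in
/-- **ONG** (short-medium; Pool/Agent/helper69/FP/ONE.lean with abstract relations: `A w (T φ) = B w (T' φ)`, `A H (T φ) - B H (T' φ) = C` for all but `η G` of the `φ`; `A ≠ B`, so `w (T φ) ≠ w (T' φ)` and `T φ ≠ T' φ`; `cf` is replaced by `C + D v`; only one exceptional set, so the loss is `2 η`). -/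
def ONG_stmt : Prop := ∀ (G X m D D' l A B : ℕ) (C : ℤ) (w : Fin G → ℕ) (H : Fin G → ℤ) (T T' : Equiv.Perm (Fin G)) (f : Fin G → Fin X → ℝ) (ε η δ e₁ : ℝ),
  1 ≤ G → 1 ≤ X → 1 ≤ D → 1 ≤ l → 0 < ε → ε ≤ 1 → 0 ≤ η → 0 ≤ δ → 0 ≤ e₁ → 1 ≤ A → 1 ≤ B → A ≤ m → B ≤ m → Nat.Coprime A B → A ≠ B → (∀ γ, 1 ≤ w γ) →
  (#{φ | ¬ (A * w (T φ) = B * w (T' φ) ∧ (A : ℤ) * H (T φ) - B * H (T' φ) = C)} : ℝ) ≤ η * G → (∀ γ u, 0 ≤ f γ u ∧ f γ u ≤ 1) →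
  (∀ γ γ', γ ≠ γ' → (mean fun z : Fin X × Fin X => if PrE (w γ, H γ + (D : ℤ) * ((z.1 : ℕ) : ℤ)) (w γ', H γ' + (D : ℤ) * ((z.2 : ℕ) : ℤ)) then 0 else f γ z.1 * f γ' z.2) ≤ δ) →
  (#{v ∈ Icc (-((m * X : ℕ) : ℤ)) (m * X : ℕ) | Fm (fa (A, B)) (D * D') l (C + D * v) < ε / 2} : ℝ) ≤ e₁ * (2 * (m * X : ℕ) + 1) →
  ε / 2 * (mean fun φ => mean (f (T φ)) * mean (f (T' φ))) - 3 * m * e₁ - δ - 2 * η ≤
    mean fun φ => mean fun z : Fin X × Fin X => f (T φ) z.1 * f (T' φ) z.2 *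
      (Fm (fa (A, B)) (D * D') l (C + D * ((A : ℤ) * ((z.1 : ℕ) : ℤ) - B * ((z.2 : ℕ) : ℤ))) - fa (A, B) (C + D * ((A : ℤ) * ((z.1 : ℕ) : ℤ) - B * ((z.2 : ℕ) : ℤ))))

/-- **MDG** (long; helper19; the assembly, model Pool/Agent/helper76/FP/MDU.lean). -/
def MDG_stmt : Prop := ∃ c₀ : ℝ, 0 < c₀ ∧ c₀ ≤ 1 ∧ ∀ ε : ℝ, 0 < ε → ε ≤ 1 → ∀ N : ℕ, ∃ K : ℕ, 1 ≤ K ∧ ∀ (a b : ℕ) (c : ℤ), Ad a b c → a ≠ b →
  (∀ m : ℕ, 1 ≤ m → m ≤ K → ¬ Pool.Agent.SK.Dens (1 - ε) (a ^ m) (b ^ m) (c * br a b m)) → ∀ e : ℝ, 0 < e → DataU N (c₀ * ε) e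

/-- **THEOREM FE** (short; helper19; from MDG and CORE2). -/
def FE_stmt : Prop := ∀ ε : ℝ, 0 < ε → ∃ K : ℕ, 1 ≤ K ∧ ∀ (a b : ℕ) (c : ℤ), Ad a b c → a ≠ b →
  ∃ m : ℕ, 1 ≤ m ∧ m ≤ K ∧ Pool.Agent.SK.Dens (1 - ε) (a ^ m) (b ^ m) (c * br a b m)

end Pool.Agent.FE
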